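import Pool.Agent.Lib_MP_22d2c8_gen.Final

/-!
# Circuits with few NOT gates for an explicit monotone function

An explicit monotone function with one output has no small circuits with few NOT gates, or, more
generally, with any number of arbitrary gates as long as the vector of the values which enter them
changes less than `N / (log N) ^ 20` times along increasing chains of inputs.

Idea. The function is (at the right scale) the OR of `B > T` disjoint copies of a function `f0`.
Fill the blocks one after another. If the arbitrary gates are frozen at the present stage then the
OR of the output and of the entry vertices with value false is a monotone function of the next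
block which is at least `f0`. It has a small monotone circuit, so it is not equal to `f0`; put an
input where it differs into the block: the function stays false and some entry vertex changes.
-/

namespace Pool.Agent.Lib_MP_22d2c8_gen.Old.FewNegations

open Pool.Agent.Lib_MP_22d2c8_gen

theorem result :
    (∀ (N : ℕ) (z z' : Fin N → Bool), (∀ i, z i = true → z' i = true) →
      polyBlocks N z = true → polyBlocks N z' = true) ∧
    (∀ (N s T k : ℕ) (C : Circuit N s), C.Computes (polyBlocks N) → C.EntryChangesLE T →
      2048 ≤ Nat.log 2 N → (T + 1) * Nat.log 2 N ^ 20 ≤ N → k ^ 5 * (T + 1) ≤ N → 2 ^ k < s) ∧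
    (∀ (n s : ℕ) (C : Circuit n s), C.EntryChangesLE (2 ^ C.entryWires - 1) ∧
      ∀ (M : ℕ) (lev : Fin n ⊕ Fin s → ℕ), C.IsLevel M lev →
        C.EntryChangesLE (C.entryProd M lev - 1)) :=
  ⟨fun N z z' h hz => polyBlocks_mono N z z' h hz,
   fun N s T k C hC hT hN hP hk => main_bound N s C hC T hT hN hP k hk,
   fun _ _ C => ⟨changes_wires C, fun M lev hlev => changes_of_level C M lev hlev⟩⟩

end Pool.Agent.Lib_MP_22d2c8_gen.Old.FewNegations
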